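import Pool.Agent.Q244.TD.Inv
import Pool.Agent.Q244.TD.Groups

/-!
# Tensors with coefficients in a given space and elements of an abelian group
-/

set_option autoImplicit false
set_option linter.unusedSectionVars false

namespace Pool.Agent.Q244.TD.Gm

open NumberField TensorProduct Module
open Pool.Agent.W289.SL Pool.Agent.W332.SL6
open Pool.Agent.W332.SL7 (QSub FinQ dimQ Bounds Coords)
open Pool.Agent.Q244.LK

section gen

variable {G : Type} [AddCommGroup G]

/-- a common independent family -/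
theorem exists_indep {ι : Type} [Finite ι] (g : ι → G) :
    ∃ (n : ℕ) (u : Fin n → G), LinearIndependent ℤ u ∧
      ∀ i, ∃ (N : ℤ) (_ : N ≠ 0) (M : Fin n → ℤ), N • g i = ∑ k, M k • u k := by
  classical
  obtain ⟨s, hs, h⟩ := exists_maximal_linearIndepOn ℤ g
  have : Fintype s := Fintype.ofFinite s
  let e := Fintype.equivFin s
  refine ⟨Fintype.card s, fun k => g (e.symm k), hs.comp _ e.symm.injective, fun i => ?_⟩
  by_cases hi : i ∈ s
  · refine ⟨1, one_ne_zero, fun k => if k = e ⟨i, hi⟩ then 1 else 0, ?_⟩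
    simp
  · obtain ⟨a, ha, h1⟩ := h i hi
    have h2 : g '' s = Set.range (fun k : Fin (Fintype.card s) => g (e.symm k)) := by
      ext x
      constructor
      · rintro ⟨j, hj, rfl⟩
        exact ⟨e ⟨j, hj⟩, by simp⟩
      · rintro ⟨k, rfl⟩
        exact ⟨_, (e.symm k).2, rfl⟩
    rw [h2] at h1
    obtain ⟨M, hM⟩ := (Submodule.mem_span_range_iff_exists_fun ℤ).1 h1
    exact ⟨a, ha, M, hM.symm⟩

variable {Ω : Type} [Field Ω] [CharZero Ω]

/-- independent elements remain independent -/
theorem coeff_zero {n : ℕ} {u : Fin n → G} (hu : LinearIndependent ℤ u) (d : Fin n → Ω)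
    (h : ∑ k, d k ⊗ₜ[ℤ] u k = 0) : d = 0 := by
  have h1 := Module.Flat.linearIndependent_one_tmul (S := Ω) hu
  rw [Fintype.linearIndependent_iff] at h1
  funext k
  refine h1 d ?_ k
  rw [← h]
  refine Finset.sum_congr rfl fun k _ => ?_
  rw [TensorProduct.smul_tmul', smul_eq_mul, mul_one]

/-- an elementary tensor in terms of the family -/
theorem tmul_family {n : ℕ} {u : Fin n → G} {g : G} {N : ℤ} (hN : N ≠ 0) {M : Fin n → ℤ}
    (h : N • g = ∑ k, M k • u k) (c : Ω) :
    c ⊗ₜ[ℤ] g = ∑ k, (c * (M k : Ω) * (N : Ω)⁻¹) ⊗ₜ[ℤ] u k := by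
  have hN' : (N : Ω) ≠ 0 := by exact_mod_cast hN
  have h1 : c = N • (c * (N : Ω)⁻¹) := by
    rw [zsmul_eq_mul]
    field_simp
  conv_lhs => rw [h1, TensorProduct.smul_tmul, h, TensorProduct.tmul_sum]
  refine Finset.sum_congr rfl fun k _ => ?_
  rw [← TensorProduct.smul_tmul, zsmul_eq_mul]
  congr 1
  ring

/-- The terms of a vanishing sum of tensors with coefficients independent over `ℚ`. -/
theorem tors_of_zero {n : ℕ} (c : Fin n → Ω) (v : Fin n → G)
    (hc : ∀ w : Fin n → ℚ, ∑ i, (w i : Ω) * c i = 0 → w = 0)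
    (h : ∑ i, c i ⊗ₜ[ℤ] v i = 0) (i : Fin n) : ∃ N : ℕ, 1 ≤ N ∧ N • v i = 0 := by
  classical
  obtain ⟨s, u, hu, hN⟩ := exists_indep v
  choose N hN0 M hM using hN
  have h1 : ∑ i, c i ⊗ₜ[ℤ] v i = ∑ k, (∑ i, c i * (M i k : Ω) * (N i : Ω)⁻¹) ⊗ₜ[ℤ] u k := by
    rw [Finset.sum_congr rfl fun i _ => tmul_family (hN0 i) (hM i) (c i), Finset.sum_comm]
    refine Finset.sum_congr rfl fun k _ => ?_
    rw [TensorProduct.sum_tmul]
  rw [h1] at h
  have h2 := coeff_zero hu _ h
  have h3 : ∀ k, M i k = 0 := by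
    intro k
    have h2' : ∑ i, c i * (M i k : Ω) * (N i : Ω)⁻¹ = 0 := congrFun h2 k
    have h4 := hc (fun i => (M i k : ℚ) * (N i : ℚ)⁻¹) (by
      rw [← h2']
      refine Finset.sum_congr rfl fun i _ => ?_
      push_cast
      ring)
    have h5 := congrFun h4 i
    have h6 : (N i : ℚ) ≠ 0 := by exact_mod_cast hN0 i
    simp only [Pi.zero_apply, mul_eq_zero, inv_eq_zero] at h5
    rcases h5 with h7 | h7
    · exact_mod_cast h7
    · exact absurd h7 h6
  have h4 : N i • v i = 0 := by
    rw [hM i]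
    exact Finset.sum_eq_zero fun k _ => by rw [h3 k, zero_smul]
  refine ⟨(N i).natAbs, Nat.one_le_iff_ne_zero.2 (Int.natAbs_ne_zero.2 (hN0 i)), ?_⟩
  rcases Int.natAbs_eq (N i) with h5 | h5
  · rw [h5, natCast_zsmul] at h4
    exact h4
  · rw [h5, neg_smul, natCast_zsmul, neg_eq_zero] at h4
    exact h4

/-- tensors with coordinates in `A` in terms of one independent family -/
theorem exists_family {A : QSub Ω} {r : ℕ} (x : Fin r → Ω ⊗[ℤ] G) (hx : ∀ j, Coords A (x j)) :
    ∃ (n : ℕ) (u : Fin n → G) (a : Fin r → Fin n → Ω), LinearIndependent ℤ u ∧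
      (∀ j k, a j k ∈ A) ∧ ∀ j, x j = ∑ k, a j k ⊗ₜ[ℤ] u k := by
  classical
  choose n c g hc _ hxg using fun j => rep A (x j) (hx j)
  obtain ⟨s, u, hu, hN⟩ := exists_indep (fun q : Σ j, Fin (n j) => g q.1 q.2)
  choose N hN0 M hM using hN
  refine ⟨s, u, fun j k => ∑ i, c j i * (M ⟨j, i⟩ k : Ω) * (N ⟨j, i⟩ : Ω)⁻¹, hu, ?_, ?_⟩
  · intro j k
    refine A.sum_mem fun i _ => ?_
    have h1 : c j i * (M ⟨j, i⟩ k : Ω) * (N ⟨j, i⟩ : Ω)⁻¹ =
        ((M ⟨j, i⟩ k : algebraicClosure ℚ Ω) * (N ⟨j, i⟩ : algebraicClosure ℚ Ω)⁻¹) • c j i := by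
      rw [Algebra.smul_def, map_mul, map_inv₀, map_intCast, map_intCast]
      ring
    rw [h1]
    exact A.smul_mem _ (hc j i)
  · intro j
    rw [hxg j, Finset.sum_congr rfl fun i _ =>
      tmul_family (hN0 ⟨j, i⟩) (hM ⟨j, i⟩) (c j i), Finset.sum_comm]
    refine Finset.sum_congr rfl fun k _ => ?_
    rw [TensorProduct.sum_tmul]

end gen

section comp

variable {p : ℕ} [hp : Fact p.Prime]

/-- the elements of `K^×` with all `p`-adic absolute values `1` -/
def Comp (p : ℕ) [Fact p.Prime] (K : Type) [Field K] : Subgroup Kˣ where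
  carrier := {u | ∀ σ : K →+* ℂ_[p], ‖σ u‖ = 1}
  mul_mem' := by
    intro a b ha hb σ
    rw [Units.val_mul, map_mul, norm_mul, ha σ, hb σ, one_mul]
  one_mem' := by
    intro σ
    rw [Units.val_one, map_one, norm_one]
  inv_mem' := by
    intro a ha σ
    rw [Units.val_inv_eq_inv_val, map_inv₀, norm_inv, ha σ, inv_one]

/-- `ℂ_p ⊗ Comp K` -/
abbrev CM (p : ℕ) [Fact p.Prime] (K : Type) [Field K] : Type := ℂ_[p] ⊗[ℤ] Additive (Comp p K)

variable {K H M : Type} [Field K] [Field H] [Field M]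

/-- the map induced by a field homomorphism -/
noncomputable def cMap (p : ℕ) [Fact p.Prime] (f : K →+* H) :
    Additive (Comp p K) →+ Additive (Comp p H) :=
  MonoidHom.toAdditive
    { toFun := fun u => ⟨Units.map (f : K →* H) (u : Kˣ), fun σ => u.2 (σ.comp f)⟩
      map_one' := Subtype.ext (map_one _)
      map_mul' := fun _ _ => Subtype.ext (map_mul _ _ _) }

/-- the value of an element -/
def val (u : Additive (Comp p K)) : K := (((Additive.toMul u : Comp p K) : Kˣ) : K)

theorem val_ne (u : Additive (Comp p K)) : val u ≠ 0 := Units.ne_zero _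

theorem val_inj {u v : Additive (Comp p K)} (h : val u = val v) : u = v :=
  Additive.toMul.injective (Subtype.ext (Units.ext h))

theorem val_cMap (f : K →+* H) (u : Additive (Comp p K)) : val (cMap p f u) = f (val u) := rfl

theorem val_nsmul (u : Additive (Comp p K)) (n : ℕ) : val (n • u) = val u ^ n := by
  unfold val
  rw [toMul_nsmul, Subgroup.coe_pow, Units.val_pow_eq_pow_val]

theorem norm_val (σ : K →+* ℂ_[p]) (u : Additive (Comp p K)) : ‖σ (val u)‖ = 1 :=
  (Additive.toMul u).2 σ

theorem nearU_val [NumberField K] (σ : K →+* ℂ_[p]) (u : Additive (Comp p K)) :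
    NearU (σ (val u)) :=
  nearU_of_norm ((Algebra.IsAlgebraic.isAlgebraic (R := ℚ) (val u)).algHom
    (RingHom.toRatAlgHom σ)) (norm_val σ u)

/-- the linear extension -/
noncomputable def cpush (f : K →+* H) : CM p K →ₗ[ℂ_[p]] CM p H :=
  (cMap p f).toIntLinearMap.baseChange ℂ_[p]

theorem cpush_tmul (f : K →+* H) (c : ℂ_[p]) (u : Additive (Comp p K)) :
    cpush f (c ⊗ₜ u : CM p K) = c ⊗ₜ cMap p f u := rfl

theorem cpush_cpush (f : K →+* H) (g : H →+* M) (x : CM p K) :
    cpush g (cpush f x) = cpush (g.comp f) x := by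
  induction x using TensorProduct.induction_on with
  | zero => simp
  | tmul c u => rfl
  | add x y hx hy => rw [map_add, map_add, map_add, hx, hy]

theorem cpush_id (x : CM p K) : cpush (RingHom.id K) x = x := by
  induction x using TensorProduct.induction_on with
  | zero => simp
  | tmul c u => rfl
  | add x y hx hy => rw [map_add, hx, hy]

theorem cpush_inj (f : K →+* H) : Function.Injective (cpush (p := p) f) := by
  have h1 : Function.Injective (cMap p f).toIntLinearMap := by
    intro u v h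
    apply val_inj
    apply f.injective
    exact congrArg val h
  exact Module.Flat.lTensor_preserves_injective_linearMap (M := ℂ_[p]) _ h1

variable {L : ℂ_[p] → ℂ_[p]} (hL : IsIwasawaLog p L)

/-- `u ↦ L (σ u)` -/
noncomputable def clogHom (σ : K →+* ℂ_[p]) : Additive (Comp p K) →+ ℂ_[p] where
  toFun u := L (σ (val u))
  map_zero' := by
    have h := hL.mul 1 1 one_ne_zero one_ne_zero
    rw [mul_one] at h
    have h2 : L 1 = 0 := left_eq_add.1 h
    show L (σ (1 : K)) = 0
    rw [map_one, h2]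
  map_add' u v := by
    show L (σ (val u * val v)) = _
    rw [map_mul, hL.mul _ _ ((map_ne_zero σ).2 (val_ne u)) ((map_ne_zero σ).2 (val_ne v))]

/-- the linear extension -/
noncomputable def clog (σ : K →+* ℂ_[p]) : CM p K →ₗ[ℂ_[p]] ℂ_[p] :=
  (clogHom hL σ).toIntLinearMap.liftBaseChange ℂ_[p]

theorem clog_tmul (σ : K →+* ℂ_[p]) (c : ℂ_[p]) (u : Additive (Comp p K)) :
    clog hL σ (c ⊗ₜ u) = c * L (σ (val u)) := rfl

theorem clog_cpush (f : K →+* H) (σ : H →+* ℂ_[p]) (x : CM p K) :
    clog hL σ (cpush f x) = clog hL (σ.comp f) x := by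
  induction x using TensorProduct.induction_on with
  | zero => simp
  | tmul c u => rfl
  | add x y hx hy => rw [map_add, map_add, map_add, hx, hy]

/-- **The bound for independent elements.** -/
theorem bounds_family (A : QSub ℂ_[p]) (hA : FinQ A) {K : Type} [Field K] [NumberField K] {r : ℕ}
    (x : Fin r → CM p K) (hx : LinearIndependent ℂ_[p] x) (hxA : ∀ j, Coords A (x j))
    (σ : K →+* ℂ_[p]) (h0 : ∀ j, clog hL σ (x j) = 0) : Bounds A r := by
  classical
  obtain ⟨n, u, a, hu, ha, hxu⟩ := exists_family x hxA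
  refine bounds_indep hL A hA (fun k => σ (val (u k))) (fun k => nearU_val σ _) ?_ r a ?_ ha ?_
  · intro m hm
    have h1 : ∑ k, m k • u k = 0 := by
      apply val_inj
      apply σ.injective
      have h2 : ∀ (v : Additive (Comp p K)) (z : ℤ), val (z • v) = val v ^ z := by
        intro v z
        unfold val
        rw [toMul_zsmul, Subgroup.coe_zpow, Units.val_zpow_eq_zpow_val]
      have h3 : ∀ s : Finset (Fin n), σ (val (∑ k ∈ s, m k • u k)) =
          ∏ k ∈ s, σ (val (u k)) ^ m k := by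
        intro s
        induction s using Finset.induction_on with
        | empty => exact map_one σ
        | insert k s hk ih =>
          rw [Finset.sum_insert hk, Finset.prod_insert hk, ← ih, ← map_zpow₀, ← h2, ← map_mul]
          rfl
      rw [h3, hm]
      exact (map_one σ).symm
    funext k
    exact (Fintype.linearIndependent_iff.1 hu) m h1 k
  · rw [Fintype.linearIndependent_iff] at hx ⊢
    intro g hg
    apply hx g
    have h1 : ∀ j, g j • x j = ∑ k, (g j * a j k) ⊗ₜ[ℤ] u k := by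
      intro j
      rw [hxu j, Finset.smul_sum]
      refine Finset.sum_congr rfl fun k _ => ?_
      rw [TensorProduct.smul_tmul', smul_eq_mul]
    rw [Finset.sum_congr rfl fun j _ => h1 j, Finset.sum_comm]
    refine Finset.sum_eq_zero fun k _ => ?_
    rw [← TensorProduct.sum_tmul]
    have h2 := congrFun hg k
    rw [Finset.sum_apply] at h2
    have h3 : ∑ j, g j * a j k = 0 := h2
    rw [h3, TensorProduct.zero_tmul]
  · intro j
    rw [← h0 j, hxu j, map_sum]
    exact Finset.sum_congr rfl fun k _ => rfl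

end comp

end Pool.Agent.Q244.TD.Gm
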