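import Pool.Agent.Q244.TD.Gm.Rep

/-!
# The relations of all number fields as spaces of invariants
-/

set_option autoImplicit false
set_option linter.unusedSectionVars false

namespace Pool.Agent.Q244.TD.Gm

open NumberField TensorProduct Module
open Pool.Agent.W289.SL (IsIwasawaLog)
open Pool.Agent.W332.SL6 (NearU)
open Pool.Agent.W332.SL7 (QSub FinQ dimQ Bounds Coords)
open Pool.Agent.Q244.LK

variable {p : ℕ} [hp : Fact p.Prime] {L : ℂ_[p] → ℂ_[p]} (hL : IsIwasawaLog p L)

/-- the elements of the kernel space which are fixed by the automorphisms which fix `F ∩ σ K` -/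
noncomputable def inv (A : QSub ℂ_[p]) (F : IntermediateField ℚ ℂ_[p]) [NumberField F] {K : Type}
    [Field K] (σ : K →+* ℂ_[p]) : Submodule ℂ_[p] (CM p F) where
  carrier := {x | x ∈ KSp hL A F ∧ ∀ γ ∈ fixer F σ, cpush (γ : F →+* F) x = x}
  add_mem' := by
    rintro x y ⟨hx, hx'⟩ ⟨hy, hy'⟩
    exact ⟨add_mem hx hy, fun γ hγ => by rw [map_add, hx' γ hγ, hy' γ hγ]⟩
  zero_mem' := ⟨zero_mem _, fun γ _ => map_zero _⟩
  smul_mem' := by
    rintro c x ⟨hx, hx'⟩
    exact ⟨Submodule.smul_mem _ _ hx, fun γ hγ => by rw [map_smul, hx' γ hγ]⟩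

/-- descent of a kernel element from `F` to a subfield -/
theorem descend_fix {A : QSub ℂ_[p]} {F : Type} [Field F] [NumberField F] (K₂ : IntermediateField ℚ F)
    {x : CM p F} (hx : InKer hL A x)
    (hfix : ∀ γ : F ≃ₐ[ℚ] F, (∀ y ∈ K₂, γ y = y) → cpush (γ : F →+* F) x = x) [IsGalois ℚ F] :
    ∃ x₂ : CM p K₂, InKer hL A x₂ ∧ cpush (algebraMap K₂ F) x₂ = x := by
  classical
  obtain ⟨n, c, u, hc, hci, rfl⟩ := rep A x hx.1
  have hci' : RInd c := fun w hw => hci w (by
    rw [← hw]
    exact Finset.sum_congr rfl fun i _ => Rat.smul_def _ _)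
  have hpow : ∀ i, ∃ m : ℕ, 1 ≤ m ∧ val (u i) ^ m ∈ K₂ := by
    intro i
    obtain ⟨M, hM, h1⟩ := exists_fixed_pow {γ : F ≃ₐ[ℚ] F | ∀ y ∈ K₂, γ y = y} c hci' u
      (fun γ hγ => hfix γ hγ) i
    refine ⟨M, hM, ?_⟩
    have h9 : val (u i) ^ M ∈ IntermediateField.fixedField (IntermediateField.fixingSubgroup K₂) := by
      rw [IntermediateField.mem_fixedField_iff]
      intro γ hγ
      exact h1 γ ((IntermediateField.mem_fixingSubgroup_iff K₂ γ).1 hγ)
    rwa [IsGalois.fixedField_fixingSubgroup] at h9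
  obtain ⟨x₂, h1, h2⟩ := descend K₂ c u hc hpow
  refine ⟨x₂, ⟨h1, fun τ => ?_⟩, h2⟩
  obtain ⟨t, ht⟩ := exists_ext' (algebraMap K₂ F) τ
  rw [← ht, ← clog_cpush, h2]
  exact hx.2 t

/-- **The dimension for `K` is the dimension of a space of invariants.** -/
theorem finrank_eq_inv (A : QSub ℂ_[p]) {F : IntermediateField ℚ ℂ_[p]} [NumberField F]
    [IsGalois ℚ F] (hF : PowersAll L A F) (K : Type) [Field K] [NumberField K]
    (σ : K →+* ℂ_[p]) : finrank ℂ_[p] (KSp hL A K) = finrank ℂ_[p] (inv hL A F σ) := by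
  classical
  have hg : ∀ γ : F ≃ₐ[ℚ] F, γ ∈ fixer F σ → ((γ : F →+* F)).comp (rst σ F) = rst σ F := by
    intro γ hγ
    ext y
    exact congrArg _ (hγ (rst σ F y) ⟨(y : K), rfl⟩)
  have h1 : KSp hL A K = (KSp hL A (sub σ F)).map (cpush (algebraMap (sub σ F) K)) := by
    apply le_antisymm
    · unfold KSp
      rw [Submodule.span_le]
      intro x hx
      obtain ⟨x₁, h2, h3⟩ := descend_all hL hF σ hx
      exact ⟨x₁, Submodule.subset_span h2, h3⟩
    · unfold KSp
      rw [Submodule.map_span, Submodule.span_le]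
      rintro _ ⟨x, hx, rfl⟩
      exact Submodule.subset_span (InKer.push hx _)
  -- elements from the subfield
  let K₂ : IntermediateField ℚ F := (RingHom.toRatAlgHom (rst σ F)).fieldRange
  have hK₂ : ∀ γ : F ≃ₐ[ℚ] F, (∀ y ∈ K₂, γ y = y) ↔ γ ∈ fixer F σ := by
    intro γ
    constructor
    · intro h y hy
      apply h
      obtain ⟨z, hz⟩ := hy
      refine ⟨⟨z, ?_⟩, ?_⟩
      · rw [mem_sub, hz]
        exact y.2
      · exact Subtype.ext hz
    · rintro h _ ⟨z, rfl⟩
      exact h _ ⟨(z : K), rfl⟩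
  have h2 : ∀ x : CM p F, InKer hL A x → (∀ γ ∈ fixer F σ, cpush (γ : F →+* F) x = x) →
      x ∈ (KSp hL A (sub σ F)).map (cpush (rst σ F)) := by
    intro x hx hfix
    obtain ⟨x₂, h3, h4⟩ := descend_fix hL K₂ hx fun γ hγ => hfix γ ((hK₂ γ).1 hγ)
    let e : sub σ F ≃ₐ[ℚ] K₂ := AlgEquiv.ofInjectiveField (RingHom.toRatAlgHom (rst σ F))
    refine ⟨cpush (e.symm : K₂ →+* sub σ F) x₂, Submodule.subset_span (InKer.push h3 _), ?_⟩
    rw [cpush_cpush, ← h4]
    congr 2
    ext y
    obtain ⟨z, hz⟩ := e.surjective y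
    rw [← hz]
    show ((rst σ F (e.symm (e z)) : F) : ℂ_[p]) = _
    rw [e.symm_apply_apply]
    rfl
  have h3 : (KSp hL A (sub σ F)).map (cpush (rst σ F)) = inv hL A F σ := by
    apply le_antisymm
    · rintro _ ⟨x, hx, rfl⟩
      refine ⟨?_, fun γ hγ => ?_⟩
      · have h4 : (KSp hL A (sub σ F)).map (cpush (rst σ F)) ≤ KSp hL A F := by
          unfold KSp
          rw [Submodule.map_span, Submodule.span_le]
          rintro _ ⟨x, hx, rfl⟩
          exact Submodule.subset_span (InKer.push hx _)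
        exact h4 ⟨x, hx, rfl⟩
      · rw [cpush_cpush, hg γ hγ]
    · -- averaging
      rintro x ⟨hx, hfix⟩
      let S : Finset (F ≃ₐ[ℚ] F) := Finset.univ.filter (· ∈ fixer F σ)
      have hSmem : ∀ γ, γ ∈ S ↔ γ ∈ fixer F σ := fun γ => by simp [S]
      have h1S : (1 : F ≃ₐ[ℚ] F) ∈ S := (hSmem _).2 fun y _ => rfl
      have hS0 : ((S.card : ℕ) : ℂ_[p]) ≠ 0 := by
        exact_mod_cast Finset.card_ne_zero.2 ⟨1, h1S⟩
      have hmul : ∀ γ ∈ S, ∀ δ ∈ S, γ * δ ∈ S := by
        intro γ hγ δ hδ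
        rw [hSmem] at *
        intro y hy
        show γ (δ y) = y
        rw [hδ y hy, hγ y hy]
      have hinv : ∀ γ ∈ S, γ⁻¹ ∈ S := by
        intro γ hγ
        rw [hSmem] at *
        intro y hy
        show γ.symm y = y
        rw [AlgEquiv.symm_apply_eq, hγ y hy]
      let e : CM p F →ₗ[ℂ_[p]] CM p F := ∑ γ ∈ S, cpush (γ : F →+* F)
      have he : ∀ y, e y = ∑ γ ∈ S, cpush (γ : F →+* F) y := fun y => by
        simp only [e, LinearMap.sum_apply]
      have key : ∀ y ∈ KSp hL A F, e y ∈ (KSp hL A (sub σ F)).map (cpush (rst σ F)) := by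
        intro y hy
        refine Submodule.span_induction
          (p := fun y _ => e y ∈ (KSp hL A (sub σ F)).map (cpush (rst σ F))) ?_ ?_ ?_ ?_ hy
        · intro y hy
          apply h2
          · rw [he]
            refine ⟨AddSubmonoid.sum_mem _ fun γ _ => (InKer.push hy _).1, fun τ => ?_⟩
            rw [map_sum]
            exact Finset.sum_eq_zero fun γ _ => (InKer.push hy _).2 τ
          · intro δ hδ
            rw [he, map_sum]
            have hδS := (hSmem δ).2 hδ
            refine Finset.sum_bij' (fun γ _ => δ * γ) (fun γ _ => δ⁻¹ * γ)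
              (fun γ hγ => hmul _ hδS _ hγ) (fun γ hγ => hmul _ (hinv _ hδS) _ hγ)
              (fun γ _ => by group) (fun γ _ => by group) (fun γ _ => ?_)
            rw [cpush_mul]
        · rw [map_zero]
          exact zero_mem _
        · intro y z _ _ h1 h2
          rw [map_add]
          exact add_mem h1 h2
        · intro c y _ h1
          rw [map_smul]
          exact Submodule.smul_mem _ _ h1
      have h4 := key x hx
      have h5 : e x = (S.card : ℂ_[p]) • x := by
        rw [he, Finset.sum_congr rfl fun γ hγ => hfix γ ((hSmem γ).1 hγ), Finset.sum_const,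
          Nat.cast_smul_eq_nsmul]
      rw [h5] at h4
      have h6 := Submodule.smul_mem _ ((S.card : ℂ_[p])⁻¹) h4
      rwa [smul_smul, inv_mul_cancel₀ hS0, one_smul] at h6
  calc finrank ℂ_[p] (KSp hL A K)
      = finrank ℂ_[p] ((KSp hL A (sub σ F)).map (cpush (algebraMap (sub σ F) K))) := by rw [h1]
    _ = finrank ℂ_[p] (KSp hL A (sub σ F)) :=
        (LinearEquiv.finrank_eq (Submodule.equivMapOfInjective _ (cpush_inj _) _)).symm
    _ = finrank ℂ_[p] ((KSp hL A (sub σ F)).map (cpush (rst σ F))) :=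
        (LinearEquiv.finrank_eq (Submodule.equivMapOfInjective _ (cpush_inj _) _))
    _ = finrank ℂ_[p] (inv hL A F σ) := by rw [h3]

/-- the action of the Galois group on the kernel space -/
noncomputable def repr (A : QSub ℂ_[p]) (F : Type) [Field F] [NumberField F] :
    (F ≃ₐ[ℚ] F) →* Module.End ℂ_[p] (KSp hL A F) where
  toFun γ := (cpush (γ : F →+* F)).restrict (p := KSp hL A F) (q := KSp hL A F) (by
    intro x hx
    refine Submodule.span_induction (p := fun x _ => cpush (γ : F →+* F) x ∈ KSp hL A F)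
      ?_ ?_ ?_ ?_ hx
    · exact fun y hy => Submodule.subset_span (InKer.push hy _)
    · rw [map_zero]
      exact zero_mem _
    · intro y z _ _ h1 h2
      rw [map_add]
      exact add_mem h1 h2
    · intro c y _ h1
      rw [map_smul]
      exact Submodule.smul_mem _ _ h1)
  map_one' := by
    ext x
    exact cpush_one (x : CM p F)
  map_mul' γ δ := by
    ext x
    exact cpush_mul γ δ (x : CM p F)

theorem repr_inj (A : QSub ℂ_[p]) (F : Type) [Field F] [NumberField F] (h : triv hL A F = ⊥) :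
    Function.Injective (repr hL A F) := by
  rw [injective_iff_map_eq_one]
  intro γ hγ
  have h1 : γ ∈ triv hL A F := by
    rw [mem_triv]
    intro x hx
    have h2 := congrArg (fun f : Module.End ℂ_[p] (KSp hL A F) =>
      ((f ⟨x, Submodule.subset_span hx⟩ : KSp hL A F) : CM p F)) hγ
    exact h2
  rw [h] at h1
  exact Subgroup.mem_bot.1 h1

theorem exists_gl (A : QSub ℂ_[p]) (hA : FinQ A) (F : Type) [Field F] [NumberField F]
    (h3 : triv hL A F = ⊥) :
    ∃ ρ : (F ≃ₐ[ℚ] F) →* GL (Fin (finrank ℂ_[p] (KSp hL A F))) ℂ_[p], Function.Injective ρ := by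
  have i1 : Module.Finite ℂ_[p] (KSp hL A F) := (ksp_basis hL A hA F).1
  let e := LinearMap.toMatrixAlgEquiv (Module.finBasis ℂ_[p] (KSp hL A F))
  let f := (e.toRingEquiv.toMulEquiv.toMonoidHom).comp (repr hL A F)
  refine ⟨f.toHomUnits, ?_⟩
  intro γ δ h
  have h4 : f γ = f δ := congrArg Units.val h
  exact repr_inj hL A F h3 (e.injective h4)

end Pool.Agent.Q244.TD.Gm
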