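import Pool.Agent.Q244.TD.Gm.Inv

/-!
# Groups whose rational elements have rank at most one
-/

set_option autoImplicit false
set_option linter.unusedSectionVars false

namespace Pool.Agent.Q244.TD.Gm

open NumberField TensorProduct Module
open Pool.Agent.W289.SL (IsIwasawaLog)
open Pool.Agent.W332.SL6 (NearU exists_pow_one)
open Pool.Agent.W332.SL7 (QSub FinQ dimQ Bounds Coords)
open Pool.Agent.Q244.LK

variable {p : ℕ} [hp : Fact p.Prime] {L : ℂ_[p] → ℂ_[p]} (hL : IsIwasawaLog p L)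

/-- The elements in relations for all embeddings have rational powers. -/
def RatPowers (L : ℂ_[p] → ℂ_[p]) (A : QSub ℂ_[p]) (K : Type) [Field K] : Prop :=
  ∀ (n : ℕ) (ε : Fin n → Additive (Comp p K)) (a : Fin n → ℂ_[p]), (∀ i, a i ∈ A) → RInd a →
    (∀ τ : K →+* ℂ_[p], ∑ i, a i * L (τ (val (ε i))) = 0) →
    ∀ i, ∃ m : ℕ, 1 ≤ m ∧ ∃ q : ℚ, val (ε i) ^ m = (q : K)

theorem ratPowers_of_inf {A : QSub ℂ_[p]} {F : IntermediateField ℚ ℂ_[p]}
    (hF : PowersAll L A F) (K : Type) [Field K] [NumberField K] (σ : K →+* ℂ_[p])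
    (h : ∀ z ∈ F, z ∈ σ.range → ∃ q : ℚ, z = q) : RatPowers L A K := by
  intro n ε a ha hai hrel i
  obtain ⟨m, hm, h1⟩ := hF n K σ ε a ha hai hrel i
  obtain ⟨q, hq⟩ := h _ h1 ⟨val (ε i) ^ m, map_pow _ _ _⟩
  refine ⟨m, hm, q, σ.injective ?_⟩
  rw [map_pow, hq, map_ratCast]

theorem ratPowers_of_fixed {A : QSub ℂ_[p]} (K : Type) [Field K] [NumberField K] [IsGalois ℚ K]
    (h : ∀ x : CM p K, InKer hL A x → ∀ γ : K ≃ₐ[ℚ] K, cpush (γ : K →+* K) x = x) :
    RatPowers L A K := by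
  intro n ε a ha hai hrel i
  obtain ⟨M, hM, h1⟩ := exists_fixed_pow (Set.univ : Set (K ≃ₐ[ℚ] K)) a hai ε
    (fun γ _ => h _ ⟨coords_sum _ _ ha, fun τ => by
      rw [map_sum, ← hrel τ]
      exact Finset.sum_congr rfl fun i _ => rfl⟩ γ) i
  have h2 : val (ε i) ^ M ∈ (⊥ : IntermediateField ℚ K) := by
    rw [IsGalois.mem_bot_iff_fixed]
    exact fun γ => h1 γ trivial
  obtain ⟨q, hq⟩ := IntermediateField.mem_bot.1 h2
  refine ⟨M, hM, q, ?_⟩
  rw [← hq, eq_ratCast]

include hL in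
theorem ratPowers_of_reps {A : QSub ℂ_[p]} (hA : FinQ A) (K : Type) [Field K] [NumberField K]
    [IsGalois ℚ K] (h : ∀ n ≤ dimQ A * (dimQ A - 1), ∀ ρ : (K ≃ₐ[ℚ] K) →* GL (Fin n) ℂ_[p], ρ = 1) :
    RatPowers L A K := by
  apply ratPowers_of_fixed hL K
  intro x hx γ
  obtain ⟨i1, hB⟩ := ksp_basis hL A hA K
  let e := LinearMap.toMatrixAlgEquiv (Module.finBasis ℂ_[p] (KSp hL A K))
  let f := (e.toRingEquiv.toMulEquiv.toMonoidHom).comp (repr hL A K)
  have h1 := h _ hB.dim f.toHomUnits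
  have h2 : f γ = 1 := by
    have h3 := congrArg (fun ρ : (K ≃ₐ[ℚ] K) →* GL _ ℂ_[p] => ((ρ γ : GL _ ℂ_[p]) :
      Matrix (Fin (finrank ℂ_[p] (KSp hL A K))) (Fin (finrank ℂ_[p] (KSp hL A K))) ℂ_[p])) h1
    exact h3
  have h3 : repr hL A K γ = 1 := e.injective (by rw [map_one]; exact h2)
  exact congrArg (fun f : Module.End ℂ_[p] (KSp hL A K) =>
    ((f ⟨x, Submodule.subset_span hx⟩ : KSp hL A K) : CM p K)) h3

include hL in
/-- **The expected answer for exponents in `A`.** -/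
theorem no_relation {A : QSub ℂ_[p]} {K : Type} [Field K] [NumberField K] (hK : RatPowers L A K)
    (T : Subgroup Kˣ) (hT : T ≤ Comp p K)
    (hrk : ∀ u ∈ T, ∀ v ∈ T, (∃ q : ℚ, (u : K) = q) → (∃ q : ℚ, (v : K) = q) →
      ∃ a b : ℤ, (a, b) ≠ 0 ∧ u ^ a = v ^ b)
    {n : ℕ} (ε : Fin n → Kˣ) (hε : ∀ i, ε i ∈ T) (hind : ∀ m : Fin n → ℤ, ∏ i, ε i ^ m i = 1 → m = 0)
    (a : Fin n → ℂ_[p]) (ha : ∀ i, a i ∈ A)
    (h0 : ∀ σ : K →+* ℂ_[p], ∑ i, a i * L (σ (ε i)) = 0) : a = 0 := by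
  classical
  let inc : Additive T →+ Additive (Comp p K) := MonoidHom.toAdditive (Subgroup.inclusion hT)
  let w : Additive T → Kˣ := fun u => ((Additive.toMul u : T) : Kˣ)
  have winj : ∀ u v : Additive T, w u = w v → u = v := fun u v h =>
    Additive.toMul.injective (Subtype.ext h)
  have wz : ∀ (u : Additive T) (z : ℤ), w (z • u) = w u ^ z := fun u z => by
    simp only [w, toMul_zsmul, Subgroup.coe_zpow]
  have wn : ∀ (u : Additive T) (z : ℕ), w (z • u) = w u ^ z := fun u z => by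
    simp only [w, toMul_nsmul, Subgroup.coe_pow]
  let ε' : Fin n → Additive T := fun i => Additive.ofMul ⟨ε i, hε i⟩
  have hind' : LinearIndependent ℤ ε' := by
    rw [Fintype.linearIndependent_iff]
    intro m hm
    have h1 := hind m (by
      have h2 := congrArg w hm
      have h3 : ∀ s : Finset (Fin n), w (∑ i ∈ s, m i • ε' i) = ∏ i ∈ s, ε i ^ m i := by
        intro s
        induction s using Finset.induction_on with
        | empty => rfl
        | insert k s hk ih =>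
          rw [Finset.sum_insert hk, Finset.prod_insert hk, ← ih]
          show w (m k • ε' k) * w (∑ i ∈ s, m i • ε' i) = _
          rw [wz]
          rfl
      rw [h3] at h2
      exact h2)
    exact fun i => congrFun h1 i
  -- the logarithm
  let lg : (K →+* ℂ_[p]) → ℂ_[p] ⊗[ℤ] Additive T →ₗ[ℂ_[p]] ℂ_[p] := fun σ =>
    (((clogHom hL σ).comp inc).toIntLinearMap).liftBaseChange ℂ_[p]
  have lg_tmul : ∀ (σ : K →+* ℂ_[p]) (c : ℂ_[p]) (u : Additive T),
      lg σ (c ⊗ₜ u) = c * L (σ (w u)) := fun σ c u => rfl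
  set x : ℂ_[p] ⊗[ℤ] Additive T := ∑ i, a i ⊗ₜ[ℤ] ε' i with hx
  have hlx : ∀ σ, lg σ x = 0 := by
    intro σ
    rw [hx, map_sum, ← h0 σ]
    exact Finset.sum_congr rfl fun i _ => rfl
  suffices hx0 : x = 0 from coeff_zero hind' a hx0
  obtain ⟨s, c, y, hc, hci, hxy⟩ := rep A x (coords_sum _ _ ha)
  have hci' : RInd c := fun w hw => hci w (by
    rw [← hw]
    exact Finset.sum_congr rfl fun i _ => Rat.smul_def _ _)
  have hpow := hK s (fun j => inc (y j)) c hc hci' (fun τ => by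
    rw [← hlx τ, hxy, map_sum]
    exact Finset.sum_congr rfl fun i _ => rfl)
  choose m hm q hq using hpow
  have hrat : ∀ j, ∃ q : ℚ, ((w (m j • y j) : Kˣ) : K) = q := fun j => ⟨q j, by
    rw [wn, Units.val_pow_eq_pow_val]
    exact hq j⟩
  by_cases htor : ∀ j, ∃ N : ℤ, N ≠ 0 ∧ N • y j = 0
  · rw [hxy]
    refine Finset.sum_eq_zero fun j _ => ?_
    obtain ⟨N, hN, h1⟩ := htor j
    rw [tmul_family (G := Additive T) hN (M := Fin.elim0) (u := Fin.elim0) (by simpa using h1) (c j)]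
    simp
  · push Not at htor
    obtain ⟨j₀, hj₀⟩ := htor
    set g := m j₀ • y j₀ with hg
    have hgt : ∀ N : ℤ, N • g = 0 → N = 0 := by
      intro N hN
      by_contra hne
      refine hj₀ (N * m j₀) (mul_ne_zero hne ?_) ?_
      · have := hm j₀
        exact_mod_cast (by omega : m j₀ ≠ 0)
      · rw [mul_smul, natCast_zsmul]
        exact hN
    have hD : ∃ D : ℂ_[p], x = D ⊗ₜ[ℤ] g := by
      have h1 : ∀ j, ∃ d : ℂ_[p], c j ⊗ₜ[ℤ] y j = d ⊗ₜ[ℤ] g := by
        intro j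
        obtain ⟨α, β, hαβ, h2⟩ := hrk (w (m j • y j)) (Additive.toMul (m j • y j)).2 (w g)
          (Additive.toMul g).2 (hrat j) (hrat j₀)
        have h3 : α • (m j • y j) = β • g := winj _ _ (by rw [wz, wz]; exact h2)
        have hα : α ≠ 0 := by
          rintro rfl
          rw [zero_smul] at h3
          exact hαβ (by rw [hgt β h3.symm]; rfl)
        have hmj : (α * m j : ℤ) ≠ 0 := by
          refine mul_ne_zero hα ?_
          have := hm j
          exact_mod_cast (by omega : m j ≠ 0)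
        have h4 := tmul_family (G := Additive T) (Ω := ℂ_[p]) hmj (M := fun _ : Fin 1 => β)
          (u := fun _ => g) (g := y j) (by
            rw [mul_smul, natCast_zsmul, h3]
            simp) (c j)
        rw [Fin.sum_univ_one] at h4
        exact ⟨_, h4⟩
      choose d hd using h1
      refine ⟨∑ j, d j, ?_⟩
      rw [hxy, TensorProduct.sum_tmul]
      exact Finset.sum_congr rfl fun j _ => hd j
    obtain ⟨D, hD⟩ := hD
    obtain ⟨σ⟩ : Nonempty (K →+* ℂ_[p]) := inferInstance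
    have h1 := hlx σ
    rw [hD, lg_tmul] at h1
    rcases mul_eq_zero.1 h1 with h2 | h2
    · rw [hD, h2, TensorProduct.zero_tmul]
    · exfalso
      obtain ⟨N, hN, h3⟩ := exists_pow_one hL (nearU_val σ (inc g)) h2
      have h4 : (N : ℤ) • g = 0 := by
        apply winj
        rw [natCast_zsmul, wn]
        apply Units.ext
        apply σ.injective
        rw [Units.val_pow_eq_pow_val, map_pow]
        show σ (val (inc g)) ^ N = σ (1 : K)
        rw [h3, map_one]
      have h5 := hgt _ h4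
      have : N = 0 := by exact_mod_cast h5
      omega

end Pool.Agent.Q244.TD.Gm
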