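import Pool.Agent.Q244.TD.Gm.Base

/-!
# Relations between the logarithms of elements which are units above `p`: one number field
-/

set_option autoImplicit false
set_option linter.unusedSectionVars false

namespace Pool.Agent.Q244.TD.Gm

open NumberField TensorProduct Module
open Pool.Agent.W289.SL (IsIwasawaLog)
open Pool.Agent.W332.SL6 (NearU)
open Pool.Agent.W332.SL7 (QSub FinQ dimQ Bounds Coords)
open Pool.Agent.Q244.LK

variable {p : ℕ} [hp : Fact p.Prime] {L : ℂ_[p] → ℂ_[p]} (hL : IsIwasawaLog p L)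

/-- coordinates in `A` and vanishing logarithms -/
def InKer (A : QSub ℂ_[p]) {K : Type} [Field K] (x : CM p K) : Prop :=
  Coords A x ∧ ∀ σ : K →+* ℂ_[p], clog hL σ x = 0

/-- the space generated by these elements -/
noncomputable def KSp (A : QSub ℂ_[p]) (K : Type) [Field K] : Submodule ℂ_[p] (CM p K) :=
  Submodule.span ℂ_[p] {x | InKer hL A x}

theorem coords_cpush {K H : Type} [Field K] [Field H] (f : K →+* H) {A : QSub ℂ_[p]} {x : CM p K}
    (hx : Coords A x) : Coords A (cpush f x) := by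
  obtain ⟨n, c, u, hc, -, rfl⟩ := rep A x hx
  rw [map_sum]
  exact coords_sum c (fun i => cMap p f (u i)) hc

variable {hL} in
theorem InKer.push {A : QSub ℂ_[p]} {K H : Type} [Field K] [Field H] {x : CM p K}
    (hx : InKer hL A x) (f : K →+* H) : InKer hL A (cpush f x) :=
  ⟨coords_cpush f hx.1, fun σ => by rw [clog_cpush]; exact hx.2 _⟩

theorem ksp_basis (A : QSub ℂ_[p]) (hA : FinQ A) (K : Type) [Field K] [NumberField K] :
    Module.Finite ℂ_[p] (KSp hL A K) ∧ Bounds A (finrank ℂ_[p] (KSp hL A K)) := by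
  classical
  obtain ⟨σ⟩ : Nonempty (K →+* ℂ_[p]) := inferInstance
  obtain ⟨b, hb, hspan, hli⟩ := exists_linearIndependent ℂ_[p] {x : CM p K | InKer hL A x}
  have key : ∀ (r : ℕ) (f : Fin r → b), Function.Injective f → Bounds A r := by
    intro r f hf
    exact bounds_family hL A hA (fun i => ((f i : b) : CM p K)) (hli.comp _ hf)
      (fun i => (hb (f i).2).1) σ fun i => (hb (f i).2).2 σ
  have hfin : Finite b := by
    by_contra hinf
    rw [not_finite_iff_infinite] at hinf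
    obtain ⟨f⟩ : Nonempty (ℕ ↪ b) := ⟨Infinite.natEmbedding b⟩
    have h1 := (key (dimQ A * (dimQ A - 1) + 1) (fun i => f i)
      (f.injective.comp Fin.val_injective)).dim
    omega
  have : Fintype b := Fintype.ofFinite b
  have h1 : KSp hL A K = Submodule.span ℂ_[p] b := by
    unfold KSp
    rw [← hspan]
  have h2 : finrank ℂ_[p] (KSp hL A K) = Fintype.card b := by
    rw [h1]
    have := finrank_span_eq_card hli
    rwa [Subtype.range_coe] at this
  refine ⟨?_, ?_⟩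
  · rw [h1]
    exact Module.Finite.span_of_finite ℂ_[p] (Set.toFinite b)
  · rw [h2]
    exact key _ (Fintype.equivFin b).symm (Fintype.equivFin b).symm.injective

/-- All elements in relations for all embeddings have a power which `σ` maps to `F`. -/
def PowersAll (L : ℂ_[p] → ℂ_[p]) (A : QSub ℂ_[p]) (F : IntermediateField ℚ ℂ_[p]) : Prop :=
  ∀ (n : ℕ) (K : Type) [Field K] [NumberField K] (σ : K →+* ℂ_[p])
    (ε : Fin n → Additive (Comp p K)) (a : Fin n → ℂ_[p]), (∀ i, a i ∈ A) → RInd a →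
    (∀ τ : K →+* ℂ_[p], ∑ i, a i * L (τ (val (ε i))) = 0) →
    ∀ i, ∃ m : ℕ, 1 ≤ m ∧ σ (val (ε i)) ^ m ∈ F

theorem comp_sub {K : Type} [Field K] [NumberField K] (K₀ : IntermediateField ℚ K)
    (u : Additive (Comp p K)) (h : val u ∈ K₀) :
    ∃ v : Additive (Comp p K₀), ((val v : K₀) : K) = val u := by
  have h0 : (⟨val u, h⟩ : K₀) ≠ 0 := fun h1 => val_ne u (congrArg Subtype.val h1)
  refine ⟨Additive.ofMul ⟨Units.mk0 (⟨val u, h⟩ : K₀) h0, fun τ => ?_⟩, rfl⟩
  obtain ⟨t, ht⟩ := exists_ext' (algebraMap K₀ K) τ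
  rw [← ht]
  exact norm_val t u

theorem descend {K : Type} [Field K] [NumberField K] (K₀ : IntermediateField ℚ K)
    {A : QSub ℂ_[p]} {n : ℕ} (c : Fin n → ℂ_[p]) (u : Fin n → Additive (Comp p K))
    (hc : ∀ i, c i ∈ A) (h : ∀ i, ∃ m : ℕ, 1 ≤ m ∧ val (u i) ^ m ∈ K₀) :
    ∃ x₀ : CM p K₀, Coords A x₀ ∧ cpush (algebraMap K₀ K) x₀ = ∑ i, c i ⊗ₜ[ℤ] u i := by
  choose m hm hmu using h
  have h1 : ∀ i, ∃ v : Additive (Comp p K₀), ((val v : K₀) : K) = val (m i • u i) := by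
    intro i
    apply comp_sub
    rw [val_nsmul]
    exact hmu i
  choose v hv using h1
  have hu : ∀ i, cMap p (algebraMap K₀ K) (v i) = m i • u i := fun i => val_inj (hv i)
  refine ⟨∑ i, ((m i : ℂ_[p])⁻¹ * c i) ⊗ₜ[ℤ] v i, coords_sum _ _ fun i => ?_, ?_⟩
  · have h2 : (m i : ℂ_[p])⁻¹ * c i = ((m i : algebraicClosure ℚ ℂ_[p])⁻¹) • c i := by
      rw [Algebra.smul_def, map_inv₀, map_natCast]
    rw [h2]
    exact A.smul_mem _ (hc i)
  · rw [map_sum]
    refine Finset.sum_congr rfl fun i _ => ?_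
    rw [cpush_tmul, hu]
    have h3 : (m i : ℂ_[p]) ≠ 0 := by
      have := hm i
      exact_mod_cast (by omega : m i ≠ 0)
    have h4 : c i = (m i : ℤ) • ((m i : ℂ_[p])⁻¹ * c i) := by
      rw [zsmul_eq_mul]
      push_cast
      field_simp
    conv_rhs => rw [h4, TensorProduct.smul_tmul]
    rw [natCast_zsmul]

theorem descend_all {A : QSub ℂ_[p]} {F : IntermediateField ℚ ℂ_[p]} (hF : PowersAll L A F)
    {K : Type} [Field K] [NumberField K] (σ : K →+* ℂ_[p]) {x : CM p K} (hx : InKer hL A x) :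
    ∃ x₁ : CM p (sub σ F), InKer hL A x₁ ∧ cpush (algebraMap (sub σ F) K) x₁ = x := by
  obtain ⟨n, c, u, hc, hci, rfl⟩ := rep A x hx.1
  have hci' : RInd c := fun w hw => hci w (by
    rw [← hw]
    exact Finset.sum_congr rfl fun i _ => Rat.smul_def _ _)
  obtain ⟨x₁, h1, h2⟩ := descend (sub σ F) c u hc fun i => by
    obtain ⟨m, hm, h3⟩ := hF n K σ u c hc hci' (fun τ => by
      rw [← hx.2 τ, map_sum]
      exact Finset.sum_congr rfl fun i _ => rfl) i
    refine ⟨m, hm, ?_⟩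
    rw [mem_sub, map_pow]
    exact h3
  refine ⟨x₁, ⟨h1, fun τ => ?_⟩, h2⟩
  obtain ⟨t, ht⟩ := exists_ext' (algebraMap (sub σ F) K) τ
  rw [← ht, ← clog_cpush, h2]
  exact hx.2 t

theorem cpush_one {F : Type} [Field F] [NumberField F] (x : CM p F) :
    cpush ((1 : F ≃ₐ[ℚ] F) : F →+* F) x = x := by
  have h : ((1 : F ≃ₐ[ℚ] F) : F →+* F) = RingHom.id F := by
    ext y
    rfl
  rw [h, cpush_id]

theorem cpush_mul {F : Type} [Field F] [NumberField F] (g h : F ≃ₐ[ℚ] F) (x : CM p F) :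
    cpush ((g * h : F ≃ₐ[ℚ] F) : F →+* F) x = cpush (g : F →+* F) (cpush (h : F →+* F) x) := by
  rw [cpush_cpush]
  congr 1

/-- the automorphisms which act trivially on the kernel -/
def triv (A : QSub ℂ_[p]) (F : Type) [Field F] [NumberField F] : Subgroup (F ≃ₐ[ℚ] F) where
  carrier := {γ | ∀ x : CM p F, InKer hL A x → cpush (γ : F →+* F) x = x}
  one_mem' := by
    intro x _
    exact cpush_one x
  mul_mem' := by
    intro γ δ hγ hδ x hx
    rw [cpush_mul, hδ x hx, hγ x hx]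
  inv_mem' := by
    intro γ hγ x hx
    have h1 : cpush ((γ⁻¹ : F ≃ₐ[ℚ] F) : F →+* F) (cpush (γ : F →+* F) x) = x := by
      rw [← cpush_mul, inv_mul_cancel, cpush_one]
    rwa [hγ x hx] at h1

theorem mem_triv {A : QSub ℂ_[p]} {F : Type} [Field F] [NumberField F] {γ : F ≃ₐ[ℚ] F} :
    γ ∈ triv hL A F ↔ ∀ x : CM p F, InKer hL A x → cpush (γ : F →+* F) x = x := Iff.rfl

theorem triv_normal (A : QSub ℂ_[p]) (F : Type) [Field F] [NumberField F] :
    (triv hL A F).Normal := by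
  refine ⟨fun γ hγ g => ?_⟩
  rw [mem_triv] at hγ ⊢
  intro x hx
  rw [cpush_mul, cpush_mul, hγ _ (hx.push _), ← cpush_mul, mul_inv_cancel, cpush_one]

/-- powers of an element fixed by a set of automorphisms -/
theorem exists_fixed_pow {F : Type} [Field F] [NumberField F] (S : Set (F ≃ₐ[ℚ] F)) {n : ℕ}
    (a : Fin n → ℂ_[p]) (hai : RInd a) (y : Fin n → Additive (Comp p F))
    (h : ∀ γ ∈ S, cpush (γ : F →+* F) (∑ j, a j ⊗ₜ[ℤ] y j : CM p F) = ∑ j, a j ⊗ₜ[ℤ] y j)
    (i : Fin n) : ∃ M : ℕ, 1 ≤ M ∧ ∀ γ ∈ S, γ (val (y i) ^ M) = val (y i) ^ M := by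
  classical
  have h4 : ∀ γ : S, ∃ N : ℕ, 1 ≤ N ∧
      N • cMap p (((γ : F ≃ₐ[ℚ] F) : F →+* F)) (y i) = N • y i := by
    intro γ
    have h5 := h γ γ.2
    rw [map_sum] at h5
    obtain ⟨N, hN, h6⟩ := tors_of_zero a
      (fun j => cMap p (((γ : F ≃ₐ[ℚ] F) : F →+* F)) (y j) - y j) hai (by
        simp only [TensorProduct.tmul_sub]
        rw [Finset.sum_sub_distrib, sub_eq_zero]
        exact h5) i
    refine ⟨N, hN, ?_⟩
    rw [← sub_eq_zero, ← nsmul_sub]
    exact h6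
  choose N hN hNy using h4
  have : Fintype S := Fintype.ofFinite _
  let M : ℕ := ∏ γ, N γ
  have hM : 1 ≤ M := Nat.one_le_iff_ne_zero.2
    (Finset.prod_ne_zero_iff.2 fun γ _ => by have := hN γ; omega)
  refine ⟨M, hM, fun γ hγ => ?_⟩
  obtain ⟨c, hc⟩ := Finset.dvd_prod_of_mem N (Finset.mem_univ ⟨γ, hγ⟩)
  have h8 : γ (val (y i) ^ N ⟨γ, hγ⟩) = val (y i) ^ N ⟨γ, hγ⟩ := by
    have h7 := congrArg val (hNy ⟨γ, hγ⟩)
    rw [val_nsmul, val_nsmul, val_cMap] at h7
    rw [map_pow]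
    exact h7
  show γ (val (y i) ^ ∏ γ, N γ) = val (y i) ^ ∏ γ, N γ
  rw [hc, pow_mul, map_pow, h8]

theorem powers_fixed {A : QSub ℂ_[p]} {F : IntermediateField ℚ ℂ_[p]} [NumberField F]
    (hF : PowersAll L A F) : PowersAll L A (fixd (algebraMap F ℂ_[p]) (triv hL A F)) := by
  classical
  intro n K _ _ σ ε a ha hai hrel i
  choose m₀ hm₀ hmF using hF n K σ ε a ha hai hrel
  let m : ℕ := ∏ j, m₀ j
  have hm : 1 ≤ m := Nat.one_le_iff_ne_zero.2
    (Finset.prod_ne_zero_iff.2 fun j _ => by have := hm₀ j; omega)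
  have hF' : ∀ j, σ (val (ε j)) ^ m ∈ F := fun j => by
    obtain ⟨c, hc⟩ := Finset.dvd_prod_of_mem m₀ (Finset.mem_univ j)
    show _ ^ (∏ j, m₀ j) ∈ F
    rw [hc, pow_mul]
    exact pow_mem (hmF j) c
  have h1 : ∀ j, ∃ v : Additive (Comp p (sub σ F)), ((val v : sub σ F) : K) = val (m • ε j) := by
    intro j
    apply comp_sub
    rw [mem_sub, val_nsmul, map_pow]
    exact hF' j
  choose v hv using h1
  let y : Fin n → Additive (Comp p F) := fun j => cMap p (rst σ F) (v j)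
  have hy : ∀ j, algebraMap F ℂ_[p] (val (y j)) = σ (val (ε j)) ^ m := by
    intro j
    rw [← map_pow, ← val_nsmul, ← hv j]
    rfl
  have hx : InKer hL A (∑ j, a j ⊗ₜ[ℤ] y j : CM p F) := by
    refine ⟨coords_sum _ _ ha, fun τ => ?_⟩
    obtain ⟨t, ht⟩ := exists_ext' (algebraMap (sub σ F) K) (τ.comp (rst σ F))
    have h2 : (∑ j, a j ⊗ₜ[ℤ] y j : CM p F) = cpush (rst σ F) (∑ j, a j ⊗ₜ[ℤ] v j) := by
      rw [map_sum]
      rfl
    rw [h2, clog_cpush, ← ht, ← clog_cpush, map_sum, map_sum]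
    have h3 : ∀ j, clog hL t (cpush (algebraMap (sub σ F) K) (a j ⊗ₜ[ℤ] v j)) =
        m * (a j * L (t (val (ε j)))) := by
      intro j
      have h4 : cMap p (algebraMap (sub σ F) K) (v j) = m • ε j := val_inj (hv j)
      have h5 : L (t (val (m • ε j))) = m * L (t (val (ε j))) := by
        have := (clogHom hL t).map_nsmul m (ε j)
        rw [nsmul_eq_mul] at this
        exact this
      rw [cpush_tmul, h4, clog_tmul, h5]
      ring
    rw [Finset.sum_congr rfl fun j _ => h3 j, ← Finset.mul_sum, hrel t, mul_zero]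
  obtain ⟨M, hM, h4⟩ := exists_fixed_pow (triv hL A F : Set (F ≃ₐ[ℚ] F)) a hai y
    (fun γ hγ => (mem_triv hL).1 hγ _ hx) i
  refine ⟨m * M, Nat.mul_pos hm hM, val (y i) ^ M, ?_, ?_⟩
  · show val (y i) ^ M ∈ IntermediateField.fixedField (triv hL A F)
    rw [IntermediateField.mem_fixedField_iff]
    exact h4
  · show algebraMap F ℂ_[p] (val (y i) ^ M) = _
    rw [map_pow, pow_mul, ← hy]

/-- **A minimal field.** -/
theorem exists_min (A : QSub ℂ_[p]) (hA : FinQ A) :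
    ∃ (F : IntermediateField ℚ ℂ_[p]) (_ : NumberField F), Normal ℚ F ∧ PowersAll L A F ∧
      triv hL A F = ⊥ := by
  classical
  have hA' : FiniteDimensional (algebraicClosure ℚ ℂ_[p]) A := hA
  obtain ⟨F₀, h1, h2, h3⟩ := field_of_space hL A
  have hP : ∃ d, ∃ F : IntermediateField ℚ ℂ_[p], FiniteDimensional ℚ F ∧ Normal ℚ F ∧
      PowersAll L A F ∧ finrank ℚ F = d :=
    ⟨_, F₀, h1, h2, fun n K _ _ σ ε a ha hai hrel i => h3 n a (fun i => σ (val (ε i))) ha hai
      (fun i => nearU_val σ _) (hrel σ) i, rfl⟩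
  obtain ⟨F, hF1, hF2, hF3, hF4⟩ := Nat.find_spec hP
  have hNF : NumberField F := { to_charZero := inferInstance, to_finiteDimensional := hF1 }
  refine ⟨F, hNF, hF2, hF3, ?_⟩
  have hG : IsGalois ℚ F := { to_normal := hF2, to_isSeparable := inferInstance }
  obtain ⟨g1, g2, g3⟩ := fixd_props (algebraMap F ℂ_[p]) (triv hL A F) (triv_normal hL A F)
  have h5 := Nat.find_min' hP ⟨_, g1, g2, powers_fixed hL hF3, rfl⟩
  rw [← hF4, ← g3] at h5
  have h6 : 0 < finrank ℚ (fixd (algebraMap F ℂ_[p]) (triv hL A F)) := Module.finrank_pos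
  have h7 : Nat.card (triv hL A F) ≤ 1 := by
    by_contra h8
    push Not at h8
    nlinarith
  exact Subgroup.eq_bot_of_card_le _ h7

end Pool.Agent.Q244.TD.Gm
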